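import Pool.Agent.H48.Witt.Final
import Pool.Agent.H48.Witt.Faithful
import Pool.Agent.H48.Witt.Verma

/-!
# Prime ideals of the enveloping algebra of the Witt algebra contain primitive ideals

Every prime ideal of `U(W)` contains a primitive ideal, which is nonzero if the prime ideal is
nonzero.
-/

set_option autoImplicit false

namespace Pool.Agent.Results.MP_f251f6_al.PrimeContainsPrimitive

universe u

/-- The Witt algebra: the Lie algebra of all `k`-derivations of the Laurent polynomial ring
`k[T, T⁻¹]`. -/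
abbrev Witt (k : Type u) [Field k] : Type u :=
  Derivation k (LaurentPolynomial k) (LaurentPolynomial k)

/-- The universal enveloping algebra of the Witt algebra. -/
abbrev UW (k : Type u) [Field k] : Type u := UniversalEnvelopingAlgebra k (Witt k)

/-- A prime ideal: a two-sided ideal `P ≠ R` such that `I J ⊆ P` implies `I ⊆ P` or `J ⊆ P` for
all two-sided ideals `I`, `J`. -/
def IsPrime {R : Type u} [Ring R] (P : TwoSidedIdeal R) : Prop :=
  P ≠ ⊤ ∧ ∀ I J : TwoSidedIdeal R, (∀ a ∈ I, ∀ b ∈ J, a * b ∈ P) → I ≤ P ∨ J ≤ P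

/-- A primitive ideal: the annihilator of a simple left module. -/
def IsPrimitive {R : Type u} [Ring R] (Q : TwoSidedIdeal R) : Prop :=
  ∃ (M : Type u) (_ : AddCommGroup M) (_ : Module R M), IsSimpleModule R M ∧
    ∀ r : R, r ∈ Q ↔ ∀ m : M, r • m = 0

/-- Over a field of characteristic zero, every prime ideal `P` of `U(W)` contains a primitive
ideal `Q`, and `Q` can be chosen nonzero if `P` is nonzero. -/
theorem result (k : Type u) [Field k] [CharZero k] (P : TwoSidedIdeal (UW k)) (hP : IsPrime P) :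
    ∃ Q : TwoSidedIdeal (UW k), IsPrimitive Q ∧ Q ≤ P ∧ (P ≠ ⊥ → Q ≠ ⊥) := by
  by_cases h0 : P = ⊥
  · exact ⟨⊥, Pool.Agent.H48.Witt.bot_primitive_of_highest k
      (Pool.Agent.H48.Witt.exists_highest k), bot_le, fun h => absurd h0 h⟩
  · obtain ⟨Q, h1, h2, h3⟩ := Pool.Agent.H48.Witt.nonzero_case k P hP h0
    exact ⟨Q, h1, h2, fun _ => h3⟩

end Pool.Agent.Results.MP_f251f6_al.PrimeContainsPrimitive
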